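import Mathlib
import Pool.Agent.V11117.FixC

/-!
# MP_9085a3_al: classification of the finite abelian groups with property (F)
-/

namespace Pool.Agent.Results.MP_9085a3_al.AbelianCase

open Pool.Agent.V11117.FixA

/-- Property (F): every subgroup is the fixed-point subgroup of some automorphism. -/
def PropF (G : Type) [Group G] : Prop :=
  ∀ H : Subgroup G, ∃ α : G ≃* G, ∀ g : G, g ∈ H ↔ α g = g

theorem F_of_S (G : Type) [CommGroup G] [Finite G] (hS : S (Additive G)) : PropF G := by
  intro H
  obtain ⟨φ, hφ⟩ := exists_ker G H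
  obtain ⟨X, Y, hXY⟩ := hS (MonoidHom.toAdditive φ)
  let β : Additive G ≃+ Additive G := (X.trans (AddEquiv.neg _)).trans Y.symm
  refine ⟨MulEquiv.toAdditive.symm β, fun g => ?_⟩
  have h1 : (MulEquiv.toAdditive.symm β) g = Additive.toMul (Y.symm (-(X (Additive.ofMul g)))) :=
    rfl
  have h2 := hXY (Additive.ofMul g)
  have h3 : (MonoidHom.toAdditive φ) (Additive.ofMul g) = Additive.ofMul (φ g) := rfl
  rw [h3] at h2
  rw [← hφ, MonoidHom.mem_ker, h1]
  constructor
  · intro h
    rw [h] at h2
    have h4 : -(X (Additive.ofMul g)) = Y (Additive.ofMul g) := by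
      have h5 : X (Additive.ofMul g) + Y (Additive.ofMul g) = 0 := h2.symm
      exact neg_eq_of_add_eq_zero_right h5
    rw [h4, AddEquiv.symm_apply_apply]
    rfl
  · intro h
    have h4 : Y.symm (-(X (Additive.ofMul g))) = Additive.ofMul g := h
    have h5 : -(X (Additive.ofMul g)) = Y (Additive.ofMul g) := by
      rw [← h4, AddEquiv.apply_symm_apply, h4]
    have h6 : Additive.ofMul (φ g) = 0 := by
      rw [h2, ← h5, add_neg_cancel]
    exact h6

/-- A finite abelian group, decomposed as a product of cyclic groups of orders `p i ^ e i`, has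
property (F) if and only if every factor with `p i = 2` is isomorphic to another factor. -/
theorem result (G : Type) [CommGroup G] [Finite G] (ι : Type) [Fintype ι] (p e : ι → ℕ)
    (hp : ∀ i, (p i).Prime) (he : ∀ i, 0 < e i)
    (iso : Additive G ≃+ (∀ i, ZMod (p i ^ e i))) :
    PropF G ↔ ∀ i, p i = 2 → ∃ j, j ≠ i ∧ p j = 2 ∧ e j = e i := by
  constructor
  · intro hF i hi
    by_contra hcon
    push Not at hcon
    obtain ⟨α, hα⟩ := hF ⊥
    let β : (∀ i, ZMod (p i ^ e i)) ≃+ (∀ i, ZMod (p i ^ e i)) :=
      (iso.symm.trans (MulEquiv.toAdditive α)).trans iso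
    obtain ⟨a, ha, hfix⟩ := nec p e hp he i hi (fun j h1 h2 => hcon j h1 h2) β
    have h1 : β a = iso (Additive.ofMul (α (Additive.toMul (iso.symm a)))) := rfl
    rw [h1] at hfix
    have h2 := congrArg iso.symm hfix
    rw [AddEquiv.symm_apply_apply] at h2
    have h3 : α (Additive.toMul (iso.symm a)) = Additive.toMul (iso.symm a) := h2
    have h4 := (hα (Additive.toMul (iso.symm a))).2 h3
    rw [Subgroup.mem_bot] at h4
    have h5 : iso.symm a = 0 := h4
    apply ha
    rw [← iso.apply_symm_apply a, h5, map_zero]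
  · intro hc
    apply F_of_S
    exact S_iso iso.symm (S_all _ ι p e rfl hp he hc)

end Pool.Agent.Results.MP_9085a3_al.AbelianCase
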